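import Pool.Agent.Helper51.Hart.Defs2

set_option autoImplicit false

noncomputable section

open Set Metric Complex MeasureTheory Filter Topology

namespace Pool.Helper51.Hart

variable {ρ : ℂ × ℂ → ℝ}

private theorem h78_diff (hρ : HDom ρ) : Differentiable ℝ ρ :=
  hρ.smooth.differentiable (by simp)

/-- directional derivative along a line -/
private theorem h78_line (hρ : HDom ρ) (p v : ℂ × ℂ) :
    HasDerivAt (fun t : ℝ => ρ (p + t • v)) (fderiv ℝ ρ p v) 0 := by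
  have h1 : HasFDerivAt ρ (fderiv ℝ ρ p) (p + (0 : ℝ) • v) := by
    rw [zero_smul, add_zero]
    exact (h78_diff hρ p).hasFDerivAt
  have h2 : HasDerivAt (fun t : ℝ => p + t • v) v 0 := by
    simpa using ((hasDerivAt_id (0 : ℝ)).smul_const v).const_add p
  exact h1.comp_hasDerivAt (0 : ℝ) h2

/-- a function with negative derivative at `0` is smaller than its value on the right -/
private theorem h78_neg {g : ℝ → ℝ} {g' : ℝ} (h : HasDerivAt g g' 0) (hg : g' < 0) :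
    ∀ᶠ t in 𝓝[>] (0 : ℝ), g t < g 0 := by
  have h1 := (hasDerivAt_iff_tendsto_slope.1 h).eventually (gt_mem_nhds hg)
  have h2 : ∀ᶠ t in 𝓝[>] (0 : ℝ), slope g 0 t < 0 :=
    h1.filter_mono (nhdsWithin_mono _ fun t (ht : (0 : ℝ) < t) => ht.ne')
  filter_upwards [h2, self_mem_nhdsWithin] with t ht ht0
  have ht0' : (0 : ℝ) < t := ht0
  rw [slope_def_field, sub_zero, div_neg_iff] at ht
  rcases ht with h3 | h3
  · exact absurd h3.2 (not_lt.2 ht0'.le)
  · linarith [h3.1]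

private theorem h78_push (hρ : HDom ρ) {p v : ℂ × ℂ} (hp : ρ p = 0)
    (hv : fderiv ℝ ρ p v < 0) : ∀ᶠ t : ℝ in 𝓝[>] (0 : ℝ), ρ (p + t • v) < 0 := by
  have := h78_neg (h78_line hρ p v) hv
  simpa [hp] using this

private theorem h78_closure (hρ : HDom ρ) : closure {p | ρ p < 0} = {p | ρ p ≤ 0} := by
  have hcont : Continuous ρ := hρ.smooth.continuous
  apply Subset.antisymm
  · exact closure_minimal (fun p (hp : ρ p < 0) => hp.le) (isClosed_le hcont continuous_const)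
  · intro p (hp : ρ p ≤ 0)
    rcases hp.lt_or_eq with h | h
    · exact subset_closure h
    have hne := hρ.reg p h
    obtain ⟨v, hv⟩ : ∃ v, fderiv ℝ ρ p v ≠ 0 := by
      by_contra hcon
      push Not at hcon
      exact hne (ContinuousLinearMap.ext fun v => by simpa using hcon v)
    obtain ⟨v, hv⟩ : ∃ v, fderiv ℝ ρ p v < 0 := by
      rcases lt_or_gt_of_ne hv with h1 | h1
      · exact ⟨v, h1⟩
      · exact ⟨-v, by rw [map_neg]; linarith⟩
    have h2 := h78_push hρ h hv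
    have h3 : Tendsto (fun t : ℝ => p + t • v) (𝓝[>] 0) (𝓝 p) := by
      have : Continuous fun t : ℝ => p + t • v := by fun_prop
      have h4 := this.tendsto 0
      simp only [zero_smul, add_zero] at h4
      exact h4.mono_left nhdsWithin_le_nhds
    exact mem_closure_of_tendsto h3 h2

private theorem h78_inv (hρ : HDom ρ) (c z w : ℂ) (hc : ‖c‖ = 1) (h : ρ (z, w) ≤ 0) :
    ρ (c * z, w) ≤ 0 := by
  have h1 : (z, w) ∈ closure {p | ρ p < 0} := by rw [h78_closure hρ]; exact h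
  have hφ : Continuous fun p : ℂ × ℂ => (c * p.1, p.2) := by fun_prop
  have h2 := map_mem_closure hφ h1 (t := {p | ρ p < 0}) fun p hp => hρ.inv c p.1 p.2 hc hp
  rw [h78_closure hρ] at h2
  exact h2

private theorem h78_unit {z : ℂ} (hz : z ≠ 0) : ‖(‖z‖ : ℂ) / z‖ = 1 ∧ ‖z / (‖z‖ : ℂ)‖ = 1 := by
  have : ‖z‖ ≠ 0 := norm_ne_zero_iff.2 hz
  constructor
  · rw [norm_div, Complex.norm_real, norm_norm, div_self this]
  · rw [norm_div, Complex.norm_real, norm_norm, div_self this]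

private theorem h78_axis (hρ : HDom ρ) (w : ℂ) (h : ρ (0, w) = 0) (ζ : ℂ) :
    fderiv ℝ ρ (0, w) (ζ, 0) = 0 := by
  have key : ∀ ζ : ℂ, ¬ fderiv ℝ ρ (0, w) (ζ, 0) < 0 := by
    intro ζ hζ
    have h1 := h78_push hρ h hζ
    have h2 : ∀ᶠ t : ℝ in 𝓝[>] (0 : ℝ), ρ (((0 : ℂ), w) + t • (-ζ, (0 : ℂ))) < 0 := by
      filter_upwards [h1] with t ht
      have e1 : ((0 : ℂ), w) + t • (ζ, (0 : ℂ)) = (t * ζ, w) := by
        ext <;> simp
      have e2 : ((0 : ℂ), w) + t • (-ζ, (0 : ℂ)) = (-1 * (t * ζ), w) := by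
        ext <;> simp
      rw [e1] at ht
      rw [e2]
      exact hρ.inv (-1) _ _ (by simp) ht
    have h3 := h78_line hρ (0, w) (-ζ, 0)
    have h4 : fderiv ℝ ρ (0, w) (-ζ, 0) = -fderiv ℝ ρ (0, w) (ζ, 0) := by
      rw [← map_neg]; simp
    have h5 := h78_neg (g := fun t : ℝ => -ρ (((0 : ℂ), w) + t • (-ζ, (0 : ℂ)))) h3.neg
      (by rw [h4]; linarith)
    obtain ⟨t, ht1, ht2⟩ := (h2.and h5).exists
    simp only [zero_smul, add_zero, h, neg_zero] at ht2
    linarith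
  have h1 := key ζ
  have h2 := key (-ζ)
  have h4 : fderiv ℝ ρ (0, w) (-ζ, 0) = -fderiv ℝ ρ (0, w) (ζ, 0) := by
    rw [← map_neg]; simp
  rw [h4] at h2
  exact le_antisymm (by linarith) (by linarith)

/-- HT-02 -/
theorem hfacts (hρ : HDom ρ) : HFacts ρ where
  closure_eq := h78_closure hρ
  cpt := by
    rw [← h78_closure hρ]
    exact hρ.bdd.isCompact_closure
  inv_le := h78_inv hρ
  norm_le := by
    intro z w
    rcases eq_or_ne z 0 with rfl | hz
    · simp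
    have hn : (‖z‖ : ℂ) ≠ 0 := by exact_mod_cast norm_ne_zero_iff.2 hz
    constructor
    · intro h
      have := h78_inv hρ _ z w (h78_unit hz).1 h
      rwa [div_mul_cancel₀ _ hz] at this
    · intro h
      have := h78_inv hρ _ _ w (h78_unit hz).2 h
      rwa [div_mul_cancel₀ _ hn] at this
  norm_lt := by
    intro z w
    rcases eq_or_ne z 0 with rfl | hz
    · simp
    have hn : (‖z‖ : ℂ) ≠ 0 := by exact_mod_cast norm_ne_zero_iff.2 hz
    constructor
    · intro h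
      have := hρ.inv _ z w (h78_unit hz).1 h
      rwa [div_mul_cancel₀ _ hz] at this
    · intro h
      have := hρ.inv _ _ w (h78_unit hz).2 h
      rwa [div_mul_cancel₀ _ hn] at this
  axis := h78_axis hρ

/-- the embedding of the slice -/
private def h78_emb : ℝ × ℂ →L[ℝ] ℂ × ℂ :=
  (Complex.ofRealCLM.comp (ContinuousLinearMap.fst ℝ ℝ ℂ)).prod (ContinuousLinearMap.snd ℝ ℝ ℂ)

private theorem h78_emb_apply (p : ℝ × ℂ) : h78_emb p = ((p.1 : ℂ), p.2) := rfl

private theorem h78_sl (ρ : ℂ × ℂ → ℝ) : sl ρ = ρ ∘ h78_emb := rfl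

theorem sl_smooth (hρ : HDom ρ) : ContDiff ℝ ((⊤ : ℕ∞) : WithTop ℕ∞) (sl ρ) := by
  rw [h78_sl]
  exact hρ.smooth.comp h78_emb.contDiff

theorem sl_cpt (hρ : HDom ρ) : IsCompact {p : ℝ × ℂ | sl ρ p ≤ 0} := by
  have h1 : Isometry h78_emb := by
    refine Isometry.of_dist_eq fun p q => ?_
    rw [h78_emb_apply, h78_emb_apply, Prod.dist_eq, Prod.dist_eq]
    simp only [Complex.dist_eq, Real.dist_eq]
    rw [← Complex.ofReal_sub, Complex.norm_real, Real.norm_eq_abs]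
  exact h1.isClosedEmbedding.isCompact_preimage (hfacts hρ).cpt

private theorem h78_fderiv_sl (hρ : HDom ρ) (p v : ℝ × ℂ) :
    fderiv ℝ (sl ρ) p v = fderiv ℝ ρ ((p.1 : ℂ), p.2) ((v.1 : ℂ), v.2) := by
  have h1 : HasFDerivAt ρ (fderiv ℝ ρ (h78_emb p)) (h78_emb p) :=
    (h78_diff hρ _).hasFDerivAt
  have h2 := h1.comp p h78_emb.hasFDerivAt
  rw [h78_sl, h2.fderiv]
  rfl

/-- rotation derivative at a boundary point -/
private theorem h78_rot (hρ : HDom ρ) {r : ℝ} {w : ℂ} (h : ρ ((r : ℂ), w) = 0) :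
    r * fderiv ℝ ρ ((r : ℂ), w) (I, 0) = 0 := by
  have hzero : ∀ θ : ℝ, ρ (Complex.exp (θ * I) * r, w) = 0 := by
    intro θ
    have h1 : ρ (Complex.exp (θ * I) * r, w) ≤ 0 :=
      h78_inv hρ _ _ _ (Complex.norm_exp_ofReal_mul_I θ) h.le
    rcases h1.lt_or_eq with h2 | h2
    · exfalso
      have h3 := hρ.inv (Complex.exp ((-θ : ℝ) * I)) _ _ (Complex.norm_exp_ofReal_mul_I _) h2
      rw [← mul_assoc, ← Complex.exp_add] at h3
      have : ((-θ : ℝ) : ℂ) * I + θ * I = 0 := by push_cast; ring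
      rw [this, Complex.exp_zero, one_mul] at h3
      linarith
    · exact h2
  have h1 : HasDerivAt (fun θ : ℝ => (Complex.exp (θ * I) * r, w)) (I * r, (0 : ℂ)) 0 := by
    have e1 : HasDerivAt (fun θ : ℝ => Complex.exp ((θ : ℂ) * I)) I 0 := by
      have e2 : HasDerivAt (fun θ : ℝ => (θ : ℂ) * I) I 0 := by
        simpa using (Complex.ofRealCLM.hasDerivAt (x := (0 : ℝ))).mul_const I
      simpa using e2.cexp
    exact (e1.mul_const (r : ℂ)).prodMk (hasDerivAt_const _ _)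
  have h2 : HasFDerivAt ρ (fderiv ℝ ρ ((r : ℂ), w))
      ((fun θ : ℝ => (Complex.exp (θ * I) * r, w)) 0) := by
    have : (fun θ : ℝ => ((Complex.exp (θ * I) * r, w) : ℂ × ℂ)) 0 = ((r : ℂ), w) := by simp
    rw [this]
    exact (h78_diff hρ _).hasFDerivAt
  have h3 := h2.comp_hasDerivAt (0 : ℝ) h1
  have h4 : (ρ ∘ fun θ : ℝ => ((Complex.exp (θ * I) * r, w) : ℂ × ℂ)) = fun _ => 0 := by
    ext θ; exact hzero θ
  rw [h4] at h3
  have h5 := h3.unique (hasDerivAt_const (0 : ℝ) (0 : ℝ))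
  have h6 : ((I * r, (0 : ℂ)) : ℂ × ℂ) = r • (I, (0 : ℂ)) := by
    ext <;> simp [mul_comm]
  rw [h6, map_smul, smul_eq_mul] at h5
  exact h5

theorem sl_reg (hρ : HDom ρ) : ∀ p, sl ρ p = 0 → fderiv ℝ (sl ρ) p ≠ 0 := by
  rintro ⟨r, w⟩ h h0
  have hp : ρ ((r : ℂ), w) = 0 := h
  refine hρ.reg _ hp ?_
  have h1 : ∀ (s : ℝ) (η : ℂ), fderiv ℝ ρ ((r : ℂ), w) ((s : ℂ), η) = 0 := by
    intro s η
    have := h78_fderiv_sl hρ (r, w) (s, η)
    rw [h0] at this
    exact this.symm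
  have h2 : fderiv ℝ ρ ((r : ℂ), w) (I, 0) = 0 := by
    rcases eq_or_ne r 0 with rfl | hr
    · rw [Complex.ofReal_zero] at hp ⊢
      exact h78_axis hρ w hp I
    · exact (mul_eq_zero.1 (h78_rot hρ hp)).resolve_left hr
  refine ContinuousLinearMap.ext fun v => ?_
  have h3 : v = ((v.1.re : ℂ), v.2) + v.1.im • (I, (0 : ℂ)) := by
    ext
    · simp
    · simp
  rw [h3, map_add, map_smul, h1, h2]
  simp

theorem sl_deriv0 (hρ : HDom ρ) : ∀ w, sl ρ (0, w) = 0 → fderiv ℝ (sl ρ) (0, w) (1, 0) = 0 := by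
  intro w h
  rw [h78_fderiv_sl hρ]
  have hp : ρ (0, w) = 0 := by simpa [sl] using h
  simpa using h78_axis hρ w hp 1

end Pool.Helper51.Hart
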