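import Pool.Agent.Helper51.Hart.Defs2

set_option autoImplicit false

noncomputable section

open Set Metric Complex MeasureTheory

namespace Pool.Helper51.Hart

variable {ρ : ℂ × ℂ → ℝ}

/-- polar coordinates with angle in `[0, 2 π]` -/
private theorem h78_polar (z : ℂ) : ∃ θ ∈ Icc (0 : ℝ) (2 * Real.pi),
    z = (‖z‖ : ℂ) * Complex.exp (θ * I) := by
  rcases le_or_gt 0 (arg z) with h | h
  · exact ⟨arg z, ⟨h, by linarith [Complex.arg_le_pi z, Real.pi_pos]⟩,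
      (Complex.norm_mul_exp_arg_mul_I z).symm⟩
  · refine ⟨arg z + 2 * Real.pi, ⟨by linarith [Complex.neg_pi_lt_arg z, Real.pi_pos],
      by linarith⟩, ?_⟩
    have h1 : (((arg z + 2 * Real.pi : ℝ)) : ℂ) * I = arg z * I + 2 * Real.pi * I := by
      push_cast; ring
    rw [h1, Complex.exp_add, Complex.exp_two_pi_mul_I, mul_one]
    exact (Complex.norm_mul_exp_arg_mul_I z).symm

/-- maximum principle on a closed annulus -/
private theorem h78_annulus_max {r1 r2 : ℝ} {g : ℂ → ℂ}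
    (hg : DifferentiableOn ℂ g {z | r1 ≤ ‖z‖ ∧ ‖z‖ ≤ r2}) {M : ℝ}
    (hM : ∀ z : ℂ, r1 ≤ ‖z‖ → ‖z‖ ≤ r2 → (‖z‖ = r1 ∨ ‖z‖ = r2) → ‖g z‖ ≤ M) :
    ∀ z : ℂ, r1 ≤ ‖z‖ → ‖z‖ ≤ r2 → ‖g z‖ ≤ M := by
  intro z h1 h2
  by_cases hz : ‖z‖ = r1 ∨ ‖z‖ = r2
  · exact hM z h1 h2 hz
  push Not at hz
  let U : Set ℂ := {z | r1 < ‖z‖ ∧ ‖z‖ < r2}
  have hopen : IsOpen U :=
    (isOpen_lt continuous_const continuous_norm).inter (isOpen_lt continuous_norm continuous_const)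
  have hclosed : IsClosed {z : ℂ | r1 ≤ ‖z‖ ∧ ‖z‖ ≤ r2} :=
    (isClosed_le continuous_const continuous_norm).inter
      (isClosed_le continuous_norm continuous_const)
  have hcl : closure U ⊆ {z : ℂ | r1 ≤ ‖z‖ ∧ ‖z‖ ≤ r2} :=
    closure_minimal (fun z hz => ⟨hz.1.le, hz.2.le⟩) hclosed
  have hbd : Bornology.IsBounded U :=
    (isBounded_closedBall (x := (0 : ℂ)) (r := r2)).subset fun z hz => by
      rw [mem_closedBall_zero_iff]; exact hz.2.le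
  have hd : DiffContOnCl ℂ g U := (hg.mono hcl).diffContOnCl
  refine Complex.norm_le_of_forall_mem_frontier_norm_le hbd hd ?_
    (subset_closure ⟨lt_of_le_of_ne h1 (Ne.symm hz.1), lt_of_le_of_ne h2 hz.2⟩)
  intro y hy
  rw [hopen.frontier_eq] at hy
  have h3 := hcl hy.1
  refine hM y h3.1 h3.2 ?_
  by_contra hcon
  push Not at hcon
  exact hy.2 ⟨lt_of_le_of_ne h3.1 (Ne.symm hcon.1), lt_of_le_of_ne h3.2 hcon.2⟩

/-- maximum principle on a closed disc -/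
private theorem h78_disc_max {r2 : ℝ} {g : ℂ → ℂ}
    (hg : DifferentiableOn ℂ g {z | ‖z‖ ≤ r2}) {M : ℝ}
    (hM : ∀ z : ℂ, ‖z‖ = r2 → ‖g z‖ ≤ M) :
    ∀ z : ℂ, ‖z‖ ≤ r2 → ‖g z‖ ≤ M := by
  intro z h2
  by_cases hz : ‖z‖ = r2
  · exact hM z hz
  let U : Set ℂ := {z | ‖z‖ < r2}
  have hopen : IsOpen U := isOpen_lt continuous_norm continuous_const
  have hclosed : IsClosed {z : ℂ | ‖z‖ ≤ r2} := isClosed_le continuous_norm continuous_const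
  have hcl : closure U ⊆ {z : ℂ | ‖z‖ ≤ r2} :=
    closure_minimal (fun z (hz : ‖z‖ < r2) => hz.le) hclosed
  have hbd : Bornology.IsBounded U :=
    (isBounded_closedBall (x := (0 : ℂ)) (r := r2)).subset fun z hz => by
      rw [mem_closedBall_zero_iff]; exact le_of_lt hz
  have hd : DiffContOnCl ℂ g U := (hg.mono hcl).diffContOnCl
  refine Complex.norm_le_of_forall_mem_frontier_norm_le hbd hd ?_
    (subset_closure (lt_of_le_of_ne h2 hz))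
  intro y hy
  rw [hopen.frontier_eq] at hy
  refine hM y ?_
  by_contra hcon
  exact hy.2 (lt_of_le_of_ne (hcl hy.1) hcon)

private theorem h78_norm_mul_exp {r θ : ℝ} (hr : 0 ≤ r) :
    ‖(r : ℂ) * Complex.exp (θ * I)‖ = r := by
  rw [norm_mul, Complex.norm_exp_ofReal_mul_I, mul_one, Complex.norm_real, Real.norm_eq_abs,
    abs_of_nonneg hr]

private theorem h78_circle (hf : HFacts ρ) {r θ : ℝ} (hr : 0 ≤ r) (w : ℂ) :
    ρ ((r : ℂ) * Complex.exp (θ * I), w) ≤ 0 ↔ sl ρ (r, w) ≤ 0 := by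
  rw [hf.norm_le, h78_norm_mul_exp hr]
  rfl

private theorem h78_cont {r1 r2 : ℝ → ℝ} {w : ℝ → ℂ}
    (h1 : ContinuousOn r1 (Icc 0 1)) (h2 : ContinuousOn r2 (Icc 0 1))
    (hw : ContinuousOn w (Icc 0 1)) (Q : Set (ℝ × ℝ)) :
    ContinuousOn (fun p : ℝ × (ℝ × ℝ) =>
      ((((r1 p.1 + p.2.1 * (r2 p.1 - r1 p.1) : ℝ) : ℂ) * Complex.exp (p.2.2 * I), w p.1) : ℂ × ℂ))
      (Icc (0 : ℝ) 1 ×ˢ Q) := by
  have hfst : MapsTo (fun p : ℝ × (ℝ × ℝ) => p.1) (Icc (0 : ℝ) 1 ×ˢ Q) (Icc 0 1) :=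
    fun p hp => hp.1
  have e1 : ContinuousOn (fun p : ℝ × (ℝ × ℝ) => r1 p.1) (Icc (0 : ℝ) 1 ×ˢ Q) :=
    h1.comp continuous_fst.continuousOn hfst
  have e2 : ContinuousOn (fun p : ℝ × (ℝ × ℝ) => r2 p.1) (Icc (0 : ℝ) 1 ×ˢ Q) :=
    h2.comp continuous_fst.continuousOn hfst
  have e3 : ContinuousOn (fun p : ℝ × (ℝ × ℝ) => w p.1) (Icc (0 : ℝ) 1 ×ˢ Q) :=
    hw.comp continuous_fst.continuousOn hfst
  have e4 : Continuous fun p : ℝ × (ℝ × ℝ) => p.2.1 := continuous_fst.comp continuous_snd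
  have e5 : Continuous fun p : ℝ × (ℝ × ℝ) => Complex.exp ((p.2.2 : ℝ) * I) := by fun_prop
  refine ContinuousOn.prodMk (ContinuousOn.mul ?_ e5.continuousOn) e3
  exact Complex.continuous_ofReal.comp_continuousOn
    (e1.add (e4.continuousOn.mul (e2.sub e1)))

/-- HT-03 -/
theorem sl_kont1 (hf : HFacts ρ) (hK : KontP {p | ρ p ≤ 0})
    (r1 r2 : ℝ → ℝ) (w : ℝ → ℂ)
    (h1 : ContinuousOn r1 (Icc 0 1)) (h2 : ContinuousOn r2 (Icc 0 1))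
    (hw : ContinuousOn w (Icc 0 1))
    (h : ∀ t ∈ Icc (0 : ℝ) 1, 0 ≤ r1 t ∧ r1 t ≤ r2 t)
    (hb : ∀ t ∈ Icc (0 : ℝ) 1, sl ρ (r1 t, w t) ≤ 0 ∧ sl ρ (r2 t, w t) ≤ 0)
    (h0 : ∀ s ∈ Icc (r1 0) (r2 0), sl ρ (s, w 0) ≤ 0) :
    ∀ t ∈ Icc (0 : ℝ) 1, ∀ s ∈ Icc (r1 t) (r2 t), sl ρ (s, w t) ≤ 0 := by
  let F : ℝ → ℝ × ℝ → ℂ × ℂ := fun t p =>
    (((r1 t + p.1 * (r2 t - r1 t) : ℝ) : ℂ) * Complex.exp (p.2 * I), w t)
  let Q : Set (ℝ × ℝ) := Icc 0 1 ×ˢ Icc 0 (2 * Real.pi)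
  let P : Set (ℝ × ℝ) := ({0, 1} : Set ℝ) ×ˢ Icc 0 (2 * Real.pi)
  have hQ : IsCompact Q := isCompact_Icc.prod isCompact_Icc
  have hP : IsCompact P := ((Set.finite_singleton (1 : ℝ)).insert 0).isCompact.prod isCompact_Icc
  have hPQ : P ⊆ Q := by
    rintro ⟨u, θ⟩ ⟨hu, hθ⟩
    refine ⟨?_, hθ⟩
    rcases hu with hu | hu
    · change u = 0 at hu; subst hu; exact ⟨le_rfl, zero_le_one⟩
    · change u = 1 at hu; subst hu; exact ⟨zero_le_one, le_rfl⟩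
  have hrad : ∀ t ∈ Icc (0 : ℝ) 1, ∀ u ∈ Icc (0 : ℝ) 1,
      r1 t ≤ r1 t + u * (r2 t - r1 t) ∧ r1 t + u * (r2 t - r1 t) ≤ r2 t := by
    intro t ht u hu
    have h3 := (h t ht).2
    constructor
    · nlinarith [hu.1]
    · nlinarith [hu.2]
  have key := hK (ℝ × ℝ) Q P hQ hP hPQ F (h78_cont h1 h2 hw Q) ?_ ?_ ?_
  · intro t ht s hs
    rcases (h t ht).2.eq_or_lt with heq | hlt
    · have : s = r1 t := le_antisymm (heq ▸ hs.2) hs.1
      rw [this]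
      exact (hb t ht).1
    · have hpos : 0 < r2 t - r1 t := by linarith
      have h3 := key t ht ((s - r1 t) / (r2 t - r1 t), 0)
        ⟨⟨div_nonneg (by linarith [hs.1]) hpos.le, (div_le_one hpos).2 (by linarith [hs.2])⟩,
          ⟨le_rfl, by positivity⟩⟩
      change ρ (((r1 t + (s - r1 t) / (r2 t - r1 t) * (r2 t - r1 t) : ℝ) : ℂ) *
        Complex.exp ((0 : ℝ) * I), w t) ≤ 0 at h3
      rw [div_mul_cancel₀ _ hpos.ne', add_sub_cancel,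
        h78_circle hf ((h t ht).1.trans hs.1)] at h3
      exact h3
  · rintro t ht ⟨u, θ⟩ ⟨hu, hθ⟩
    rcases hu with hu | hu
    · change u = 0 at hu
      subst hu
      change ρ (((r1 t + 0 * (r2 t - r1 t) : ℝ) : ℂ) * Complex.exp (θ * I), w t) ≤ 0
      rw [zero_mul, add_zero, h78_circle hf (h t ht).1]
      exact (hb t ht).1
    · change u = 1 at hu
      subst hu
      change ρ (((r1 t + 1 * (r2 t - r1 t) : ℝ) : ℂ) * Complex.exp (θ * I), w t) ≤ 0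
      rw [one_mul, add_sub_cancel, h78_circle hf ((h t ht).1.trans (h t ht).2)]
      exact (hb t ht).2
  · intro t ht V hV hFV f hfV M hM
    have hpt : ∀ z : ℂ, r1 t ≤ ‖z‖ → ‖z‖ ≤ r2 t → ∃ u ∈ Icc (0 : ℝ) 1,
        ∃ θ ∈ Icc (0 : ℝ) (2 * Real.pi), F t (u, θ) = (z, w t) ∧
          ((‖z‖ = r1 t ∨ ‖z‖ = r2 t) → (u, θ) ∈ P ∨ ∃ θ' u', (u', θ') ∈ P ∧
            F t (u', θ') = (z, w t)) := by
      intro z hz1 hz2
      obtain ⟨θ, hθ, hzθ⟩ := h78_polar z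
      have hF0 : ‖z‖ = r1 t → F t (0, θ) = (z, w t) := by
        intro hh
        change (((r1 t + 0 * (r2 t - r1 t) : ℝ) : ℂ) * Complex.exp (θ * I), w t) = _
        rw [zero_mul, add_zero, ← hh, ← hzθ]
      have hF1 : ‖z‖ = r2 t → F t (1, θ) = (z, w t) := by
        intro hh
        change (((r1 t + 1 * (r2 t - r1 t) : ℝ) : ℂ) * Complex.exp (θ * I), w t) = _
        rw [one_mul, add_sub_cancel, ← hh, ← hzθ]
      rcases (h t ht).2.eq_or_lt with heq | hlt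
      · have : ‖z‖ = r1 t := le_antisymm (heq ▸ hz2) hz1
        exact ⟨0, ⟨le_rfl, zero_le_one⟩, θ, hθ, hF0 this, fun _ => Or.inl ⟨Or.inl rfl, hθ⟩⟩
      · have hpos : 0 < r2 t - r1 t := by linarith
        refine ⟨(‖z‖ - r1 t) / (r2 t - r1 t), ⟨div_nonneg (by linarith) hpos.le,
          (div_le_one hpos).2 (by linarith)⟩, θ, hθ, ?_, ?_⟩
        · change (((r1 t + (‖z‖ - r1 t) / (r2 t - r1 t) * (r2 t - r1 t) : ℝ) : ℂ) *
            Complex.exp (θ * I), w t) = _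
          rw [div_mul_cancel₀ _ hpos.ne', add_sub_cancel, ← hzθ]
        · rintro (hh | hh)
          · exact Or.inr ⟨θ, 0, ⟨Or.inl rfl, hθ⟩, hF0 hh⟩
          · exact Or.inr ⟨θ, 1, ⟨Or.inr rfl, hθ⟩, hF1 hh⟩
    have hg : DifferentiableOn ℂ (fun z => f (z, w t)) {z | r1 t ≤ ‖z‖ ∧ ‖z‖ ≤ r2 t} := by
      have : Differentiable ℂ fun z : ℂ => (z, w t) :=
        differentiable_id.prodMk (differentiable_const _)
      refine hfV.comp this.differentiableOn ?_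
      rintro z ⟨hz1, hz2⟩
      obtain ⟨u, hu, θ, hθ, hF, -⟩ := hpt z hz1 hz2
      change (z, w t) ∈ V
      rw [← hF]
      exact hFV (u, θ) ⟨hu, hθ⟩
    have hmax := h78_annulus_max hg (M := M) (by
      intro z hz1 hz2 hz
      obtain ⟨u, hu, θ, hθ, hF, hP'⟩ := hpt z hz1 hz2
      rcases hP' hz with h5 | ⟨θ', u', h5, h6⟩
      · have := hM (u, θ) h5
        rwa [hF] at this
      · have := hM (u', θ') h5
        rwa [h6] at this)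
    rintro ⟨u, θ⟩ ⟨hu, hθ⟩
    have hr := hrad t ht u hu
    have h5 := hmax (((r1 t + u * (r2 t - r1 t) : ℝ) : ℂ) * Complex.exp (θ * I)) (by
      rw [h78_norm_mul_exp ((h t ht).1.trans hr.1)]; exact hr.1) (by
      rw [h78_norm_mul_exp ((h t ht).1.trans hr.1)]; exact hr.2)
    exact h5
  · rintro ⟨u, θ⟩ ⟨hu, hθ⟩
    have hr := hrad 0 ⟨le_rfl, zero_le_one⟩ u hu
    have h5 := (h 0 ⟨le_rfl, zero_le_one⟩).1
    change ρ (((r1 0 + u * (r2 0 - r1 0) : ℝ) : ℂ) * Complex.exp (θ * I), w 0) ≤ 0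
    rw [h78_circle hf (h5.trans hr.1)]
    exact h0 _ hr

theorem sl_kont0 (hf : HFacts ρ) (hK : KontP {p | ρ p ≤ 0})
    (r2 : ℝ → ℝ) (w : ℝ → ℂ)
    (h2 : ContinuousOn r2 (Icc 0 1)) (hw : ContinuousOn w (Icc 0 1))
    (h : ∀ t ∈ Icc (0 : ℝ) 1, 0 ≤ r2 t)
    (hb : ∀ t ∈ Icc (0 : ℝ) 1, sl ρ (r2 t, w t) ≤ 0)
    (h0 : ∀ s ∈ Icc 0 (r2 0), sl ρ (s, w 0) ≤ 0) :
    ∀ t ∈ Icc (0 : ℝ) 1, ∀ s ∈ Icc 0 (r2 t), sl ρ (s, w t) ≤ 0 := by
  let F : ℝ → ℝ × ℝ → ℂ × ℂ := fun t p =>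
    ((((0 : ℝ) + p.1 * (r2 t - 0) : ℝ) : ℂ) * Complex.exp (p.2 * I), w t)
  let Q : Set (ℝ × ℝ) := Icc 0 1 ×ˢ Icc 0 (2 * Real.pi)
  let P : Set (ℝ × ℝ) := ({1} : Set ℝ) ×ˢ Icc 0 (2 * Real.pi)
  have hQ : IsCompact Q := isCompact_Icc.prod isCompact_Icc
  have hP : IsCompact P := isCompact_singleton.prod isCompact_Icc
  have hPQ : P ⊆ Q := by
    rintro ⟨u, θ⟩ ⟨hu, hθ⟩
    change u = 1 at hu
    subst hu
    exact ⟨⟨zero_le_one, le_rfl⟩, hθ⟩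
  have hrad : ∀ t ∈ Icc (0 : ℝ) 1, ∀ u ∈ Icc (0 : ℝ) 1,
      0 ≤ 0 + u * (r2 t - 0) ∧ 0 + u * (r2 t - 0) ≤ r2 t := by
    intro t ht u hu
    have h3 := h t ht
    constructor
    · nlinarith [hu.1]
    · nlinarith [hu.2]
  have key := hK (ℝ × ℝ) Q P hQ hP hPQ F
    (h78_cont (r1 := fun _ => 0) continuousOn_const h2 hw Q) ?_ ?_ ?_
  · intro t ht s hs
    rcases (h t ht).eq_or_lt with heq | hlt
    · have : s = r2 t := le_antisymm hs.2 (heq ▸ hs.1)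
      rw [this]
      exact hb t ht
    · have h3 := key t ht (s / r2 t, 0)
        ⟨⟨div_nonneg hs.1 hlt.le, (div_le_one hlt).2 hs.2⟩, ⟨le_rfl, by positivity⟩⟩
      change ρ ((((0 : ℝ) + s / r2 t * (r2 t - 0) : ℝ) : ℂ) *
        Complex.exp ((0 : ℝ) * I), w t) ≤ 0 at h3
      rw [sub_zero, div_mul_cancel₀ _ hlt.ne', zero_add, h78_circle hf hs.1] at h3
      exact h3
  · rintro t ht ⟨u, θ⟩ ⟨hu, hθ⟩
    change u = 1 at hu
    subst hu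
    change ρ ((((0 : ℝ) + 1 * (r2 t - 0) : ℝ) : ℂ) * Complex.exp (θ * I), w t) ≤ 0
    rw [one_mul, sub_zero, zero_add, h78_circle hf (h t ht)]
    exact hb t ht
  · intro t ht V hV hFV f hfV M hM
    have hpt : ∀ z : ℂ, ‖z‖ ≤ r2 t → ∃ u ∈ Icc (0 : ℝ) 1,
        ∃ θ ∈ Icc (0 : ℝ) (2 * Real.pi), F t (u, θ) = (z, w t) := by
      intro z hz2
      obtain ⟨θ, hθ, hzθ⟩ := h78_polar z
      rcases (h t ht).eq_or_lt with heq | hlt
      · have h0z : ‖z‖ = 0 := le_antisymm (heq ▸ hz2) (norm_nonneg _)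
        refine ⟨0, ⟨le_rfl, zero_le_one⟩, θ, hθ, ?_⟩
        change ((((0 : ℝ) + 0 * (r2 t - 0) : ℝ) : ℂ) * Complex.exp (θ * I), w t) = _
        rw [zero_mul, add_zero, ← h0z, ← hzθ]
      · refine ⟨‖z‖ / r2 t, ⟨div_nonneg (norm_nonneg _) hlt.le, (div_le_one hlt).2 hz2⟩, θ, hθ, ?_⟩
        change ((((0 : ℝ) + ‖z‖ / r2 t * (r2 t - 0) : ℝ) : ℂ) * Complex.exp (θ * I), w t) = _
        rw [sub_zero, div_mul_cancel₀ _ hlt.ne', zero_add, ← hzθ]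
    have hg : DifferentiableOn ℂ (fun z => f (z, w t)) {z | ‖z‖ ≤ r2 t} := by
      have : Differentiable ℂ fun z : ℂ => (z, w t) :=
        differentiable_id.prodMk (differentiable_const _)
      refine hfV.comp this.differentiableOn ?_
      rintro z hz2
      obtain ⟨u, hu, θ, hθ, hF⟩ := hpt z hz2
      change (z, w t) ∈ V
      rw [← hF]
      exact hFV (u, θ) ⟨hu, hθ⟩
    have hmax := h78_disc_max hg (M := M) (by
      intro z hz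
      obtain ⟨θ, hθ, hzθ⟩ := h78_polar z
      have h5 := hM (1, θ) ⟨rfl, hθ⟩
      have h6 : F t (1, θ) = (z, w t) := by
        change ((((0 : ℝ) + 1 * (r2 t - 0) : ℝ) : ℂ) * Complex.exp (θ * I), w t) = _
        rw [one_mul, sub_zero, zero_add, ← hz, ← hzθ]
      rwa [h6] at h5)
    rintro ⟨u, θ⟩ ⟨hu, hθ⟩
    have hr := hrad t ht u hu
    have h5 := hmax ((((0 : ℝ) + u * (r2 t - 0) : ℝ) : ℂ) * Complex.exp (θ * I)) (by
      rw [h78_norm_mul_exp hr.1]; exact hr.2)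
    exact h5
  · rintro ⟨u, θ⟩ ⟨hu, hθ⟩
    have hr := hrad 0 ⟨le_rfl, zero_le_one⟩ u hu
    change ρ ((((0 : ℝ) + u * (r2 0 - 0) : ℝ) : ℂ) * Complex.exp (θ * I), w 0) ≤ 0
    rw [h78_circle hf hr.1]
    exact h0 _ hr

end Pool.Helper51.Hart
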