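import Pool.Agent.Helper51.Hart.Defs2

set_option autoImplicit false

noncomputable section

open Set Metric Complex MeasureTheory

namespace Pool.Helper51.Hart

variable {ρ : ℂ × ℂ → ℝ}

/-- maximum principle on a closed rectangle -/
private theorem h78_rect_max {L1 L2 Θ : ℝ} (hL : L1 < L2) (hΘ : 0 < Θ) {g : ℂ → ℂ}
    (hg : DifferentiableOn ℂ g (Icc L1 L2 ×ℂ Icc (-Θ) Θ)) {M : ℝ}
    (hM : ∀ x ∈ Icc L1 L2, ∀ y ∈ Icc (-Θ) Θ, (x = L1 ∨ x = L2 ∨ y = -Θ ∨ y = Θ) →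
      ‖g (x + y * I)‖ ≤ M) :
    ∀ x ∈ Icc L1 L2, ∀ y ∈ Icc (-Θ) Θ, ‖g (x + y * I)‖ ≤ M := by
  intro x hx y hy
  have hcl : closure (Ioo L1 L2 ×ℂ Ioo (-Θ) Θ) = Icc L1 L2 ×ℂ Icc (-Θ) Θ := by
    rw [closure_reProdIm, closure_Ioo hL.ne, closure_Ioo (by linarith)]
  have hopen : IsOpen (Ioo L1 L2 ×ℂ Ioo (-Θ) Θ) := isOpen_Ioo.reProdIm isOpen_Ioo
  have hbd : Bornology.IsBounded (Ioo L1 L2 ×ℂ Ioo (-Θ) Θ) :=
    (isBounded_Ioo _ _).reProdIm (isBounded_Ioo _ _)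
  have hd : DiffContOnCl ℂ g (Ioo L1 L2 ×ℂ Ioo (-Θ) Θ) := by
    apply DifferentiableOn.diffContOnCl
    rw [hcl]
    exact hg
  refine Complex.norm_le_of_forall_mem_frontier_norm_le hbd hd ?_ ?_
  · intro z hz
    rw [hopen.frontier_eq, hcl] at hz
    obtain ⟨hz1, hz2⟩ := hz
    rw [mem_reProdIm] at hz1 hz2
    have := hM z.re hz1.1 z.im hz1.2 (by
      by_contra hcon
      push Not at hcon
      obtain ⟨h1, h2, h3, h4⟩ := hcon
      exact hz2 ⟨⟨lt_of_le_of_ne hz1.1.1 (Ne.symm h1), lt_of_le_of_ne hz1.1.2 h2⟩,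
        ⟨lt_of_le_of_ne hz1.2.1 (Ne.symm h3), lt_of_le_of_ne hz1.2.2 h4⟩⟩)
    rwa [Complex.re_add_im] at this
  · rw [hcl, mem_reProdIm]
    simpa using And.intro hx hy

/-- HT-04 -/
theorem sl_kont2 (hf : HFacts ρ) (hK : KontP {p | ρ p ≤ 0})
    (w₀ : ℂ) (L1 L2 Θ c0 c1 c2 t0 : ℝ) (hL : L1 < L2) (hΘ : 0 < Θ) (ht0 : 0 ≤ t0)
    (h0 : ∀ x ∈ Icc L1 L2, sl ρ (Real.exp x, w₀) ≤ 0)
    (hb : ∀ x ∈ Icc L1 L2, ∀ y ∈ Icc (-Θ) Θ, (x = L1 ∨ x = L2 ∨ y = -Θ ∨ y = Θ) →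
      ∀ t ∈ Icc 0 t0, sl ρ (Real.exp x, disc w₀ c0 c1 c2 t x y) ≤ 0) :
    ∀ x ∈ Icc L1 L2, ∀ y ∈ Icc (-Θ) Θ, ∀ t ∈ Icc 0 t0,
      sl ρ (Real.exp x, disc w₀ c0 c1 c2 t x y) ≤ 0 := by
  have hnorm : ∀ x y : ℝ, ∀ w : ℂ, ρ (Complex.exp (x + y * I), w) ≤ 0 ↔
      sl ρ (Real.exp x, w) ≤ 0 := by
    intro x y w
    rw [hf.norm_le]
    simp [sl, Complex.norm_exp]
  let F : ℝ → ℝ × ℝ → ℂ × ℂ := fun t p =>
    (Complex.exp (p.1 + p.2 * I), disc w₀ c0 c1 c2 (t * t0) p.1 p.2)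
  have hF : Continuous fun p : ℝ × (ℝ × ℝ) => F p.1 p.2 := by
    have hx : Continuous fun p : ℝ × (ℝ × ℝ) => ((p.2.1 : ℝ) : ℂ) :=
      Complex.continuous_ofReal.comp (continuous_fst.comp continuous_snd)
    have hy : Continuous fun p : ℝ × (ℝ × ℝ) => ((p.2.2 : ℝ) : ℂ) :=
      Complex.continuous_ofReal.comp (continuous_snd.comp continuous_snd)
    have ht : Continuous fun p : ℝ × (ℝ × ℝ) => (((p.1 * t0 : ℝ)) : ℂ) :=
      Complex.continuous_ofReal.comp (continuous_fst.mul continuous_const)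
    simp only [F, disc]
    fun_prop
  let Q : Set (ℝ × ℝ) := Icc L1 L2 ×ˢ Icc (-Θ) Θ
  let P : Set (ℝ × ℝ) := Q ∩ {p | p.1 = L1 ∨ p.1 = L2 ∨ p.2 = -Θ ∨ p.2 = Θ}
  have hQ : IsCompact Q := isCompact_Icc.prod isCompact_Icc
  have hPc : IsClosed {p : ℝ × ℝ | p.1 = L1 ∨ p.1 = L2 ∨ p.2 = -Θ ∨ p.2 = Θ} :=
    (isClosed_eq continuous_fst continuous_const).union
      ((isClosed_eq continuous_fst continuous_const).union
        ((isClosed_eq continuous_snd continuous_const).union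
          (isClosed_eq continuous_snd continuous_const)))
  have hP : IsCompact P := hQ.inter_right hPc
  have hmem : ∀ t ∈ Icc (0 : ℝ) 1, t * t0 ∈ Icc 0 t0 := fun t ht =>
    ⟨mul_nonneg ht.1 ht0, mul_le_of_le_one_left ht0 ht.2⟩
  have key := hK (ℝ × ℝ) Q P hQ hP inter_subset_left F hF.continuousOn ?_ ?_ ?_
  · intro x hx y hy t ht
    rcases ht0.eq_or_lt with h | h
    · subst h
      have h00 : t = 0 := le_antisymm ht.2 ht.1
      have hd : disc w₀ c0 c1 c2 t x y = w₀ := by simp [disc, h00]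
      rw [hd]
      exact h0 x hx
    · have h2 := key (t / t0) ⟨div_nonneg ht.1 h.le, (div_le_one h).2 ht.2⟩ (x, y) ⟨hx, hy⟩
      have h3 : F (t / t0) (x, y) = (Complex.exp (x + y * I), disc w₀ c0 c1 c2 t x y) := by
        simp only [F]
        rw [div_mul_cancel₀ _ h.ne']
      rw [h3] at h2
      exact (hnorm x y _).1 h2
  · rintro t ht ⟨x, y⟩ ⟨⟨hx, hy⟩, hxy⟩
    exact (hnorm x y _).2 (hb x hx y hy hxy _ (hmem t ht))
  · intro t ht V hV hFV f hfV M hM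
    let φ : ℂ → ℂ × ℂ := fun ζ => (Complex.exp ζ,
      w₀ + ((t * t0 : ℝ) : ℂ) * Complex.exp (I * (c0 + c1 * ζ + c2 * ζ ^ 2)))
    have hφ : ∀ x y : ℝ, φ (x + y * I) = F t (x, y) := fun x y => by simp [φ, F, disc]
    have hφd : Differentiable ℂ φ := by
      refine Differentiable.prodMk Complex.differentiable_exp ?_
      refine (differentiable_const _).add ((differentiable_const _).mul ?_)
      refine Differentiable.cexp ?_
      fun_prop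
    have hg : DifferentiableOn ℂ (f ∘ φ) (Icc L1 L2 ×ℂ Icc (-Θ) Θ) := by
      refine hfV.comp hφd.differentiableOn ?_
      intro ζ hζ
      rw [mem_reProdIm] at hζ
      have h1 := hφ ζ.re ζ.im
      rw [Complex.re_add_im] at h1
      rw [h1]
      exact hFV (ζ.re, ζ.im) ⟨hζ.1, hζ.2⟩
    rintro ⟨x, y⟩ ⟨hx, hy⟩
    have h2 := h78_rect_max hL hΘ hg (M := M) (by
      intro x hx y hy hxy
      rw [Function.comp_apply, hφ]
      exact hM (x, y) ⟨⟨hx, hy⟩, hxy⟩) x hx y hy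
    rwa [Function.comp_apply, hφ] at h2
  · rintro ⟨x, y⟩ ⟨hx, hy⟩
    have hd : disc w₀ c0 c1 c2 (0 * t0) x y = w₀ := by simp [disc]
    change ρ (Complex.exp (x + y * I), disc w₀ c0 c1 c2 (0 * t0) x y) ≤ 0
    rw [hd, hnorm]
    exact h0 x hx

end Pool.Helper51.Hart
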